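import Pool.Agent.H91.Wm4

set_option autoImplicit false

open Pool.Agent.H91.Wm in
theorem Pool.Agent.Results.MP_30e1ee_an.Fails.result :
    ∀ (p q : ENNReal) [Fact (1 ≤ p)] [Fact (1 ≤ q)], 1 < p → p ≤ 2 → 2 ≤ q → q ≠ ⊤ →
    ¬(p = 2 ∧ q = 2) →
    ¬Pool.Agent.H91.Wm.WMP ℝ
        (MeasureTheory.Lp ℝ p (MeasureTheory.volume : MeasureTheory.Measure unitInterval))
        (MeasureTheory.Lp ℝ q (MeasureTheory.volume : MeasureTheory.Measure unitInterval)) ∧
      ¬Pool.Agent.H91.Wm.WMP ℂ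
        (MeasureTheory.Lp ℂ p (MeasureTheory.volume : MeasureTheory.Measure unitInterval))
        (MeasureTheory.Lp ℂ q (MeasureTheory.volume : MeasureTheory.Measure unitInterval)) :=
  main
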